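import Pool.Agent.H31.LH

open Pool.Agent.H31.LG

theorem Pool.Agent.Results.MP_c8915d_al.Main.result :
    ∃ S : Cond, Height1 S ∧ LGI S ∧ ¬ LG S :=
  ⟨HM, hm1, lgi, nlg⟩
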